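import Pool.Agent.Zk81.RS.Frob
import Pool.Agent.K3h66.RS.Mono
import Pool.Agent.K3h23.RS.Tors

/-!
# Rubin's lattices for all `T` and for the sets `{v}`, `v` in a rich set

The proof is the one of `intAt_all` in `Pool.Agent.K3h30.RS.Dich` (starting library), for arbitrary
elements in the place of the Stark element.
-/

set_option autoImplicit false
set_option linter.all false

open NumberField IsDedekindDomain Filter Topology

noncomputable section

namespace Pool.Agent.Zk81.RS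

open Pool.Agent.K3h30.RS

variable {F H G : Type} [Field F] [NumberField F] [Field H] [NumberField H] [Algebra F H]
  [CommGroup G] [Finite G] [MulSemiringAction G H]

theorem exists_good (D : RubinData F H G) {P : HeightOneSpectrum (𝓞 F) → Prop} (hP : Rich P)
    {L : Type} [Field L] [NumberField L] [Algebra F L] (Φ : L ≃ₐ[F] L)
    (bad : Finset (HeightOneSpectrum (𝓞 F))) :
    ∃ v, P v ∧ v ∉ bad ∧ v ∉ D.S ∧ Module.finrank ℚ F + 1 < ringChar (𝓞 F ⧸ v.asIdeal) ∧
      FrobIn Φ v := by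
  classical
  obtain ⟨v, h1, h2, h3⟩ := hP L Φ
    (bad ∪ D.S ∪ (finite_small F (Module.finrank ℚ F + 1)).toFinset)
  simp only [Finset.mem_union, not_or, Set.Finite.mem_toFinset, Set.mem_ofPred_eq, not_le] at h2
  exact ⟨v, h1, h2.1.1, h2.1.2, h2.2, h3⟩

/-- integrality for all `T` follows from the sets `{v}`, `v` in a rich set -/
theorem intAt_all [hG : IsGaloisGroup G F H] (D : RubinData F H G)
    {P : HeightOneSpectrum (𝓞 F) → Prop} (hP : Rich P)
    {U₀ : Subgroup Hˣ} (h₀ : U₀ ≤ US D) (u₀ : Wedge G D.r U₀)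
    (hgood : ∀ v, P v → v ∉ D.S → Module.finrank ℚ F + 1 < ringChar (𝓞 F ⧸ v.asIdeal) →
      IntAt D h₀ u₀ {v})
    (T : Finset (HeightOneSpectrum (𝓞 F))) (hT : D.Allowed T) :
    IntAt D h₀ u₀ T := by
  classical
  intro f hf hi
  refine mem_range_of_LInt _ fun l hl => ?_
  have hunit : ∀ t ∈ T, ∀ x ∈ US D, ∀ w : HeightOneSpectrum (𝓞 H), Above {t} w →
      w.valuation H (x : H) = 1 := by
    intro t ht x hx w hw
    refine hx.1 w ?_
    rw [above_iff hw]
    exact fun hh => (Finset.disjoint_left.1 hT.1 (Finset.mem_coe.1 hh)) ht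
  by_cases hl1 : ∃ t₀ ∈ T, ringChar (𝓞 F ⧸ t₀.asIdeal) ≠ l
  · -- case A
    obtain ⟨t₀, ht₀, hchar⟩ := hl1
    obtain ⟨Z, hZ1, hZ2⟩ := exists_gen D
    have ht₀S : t₀ ∉ D.S := fun h => (Finset.disjoint_left.1 hT.1 h) ht₀
    obtain ⟨M, hMl⟩ := exists_pow_LInt hl (D.delta (T.erase t₀) * wval D h₀ f u₀)
    obtain ⟨L, i1, i2, i3, Φ, bad, hPv⟩ := approx F H G t₀ (D.σ t₀) l M Z (D.frob t₀ ht₀S)
      (D.unramified t₀ ht₀S) hl hchar (fun z hz w hw => hunit t₀ ht₀ z (hZ1 z hz) w hw)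
    obtain ⟨v, hvP, hvT', hvS, hvn, hvF⟩ := exists_good D hP Φ (bad ∪ T)
    have hvT : v ∉ T := fun h => hvT' (Finset.mem_union_right _ h)
    obtain ⟨hv1, hv2, hv3, hv4⟩ := hPv v (fun h => hvT' (Finset.mem_union_left _ h)) hvF
    have hσ : D.σ v = D.σ t₀ := Pool.Agent.K3h23.RS.t_FROBUNIQ F H G v (D.unramified v hvS) _ _ (D.frob v hvS) hv1
    set Tl := (T.filter (fun t => ringChar (𝓞 F ⧸ t.asIdeal) ≠ l)).erase t₀ with hTl
    have hvTl : v ∉ Tl := fun h => hvT (Finset.mem_of_mem_filter v (Finset.mem_of_mem_erase h))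
    have hdis : Disjoint D.S (insert v Tl) := by
      rw [Finset.disjoint_insert_right]
      refine ⟨hvS, Finset.disjoint_left.2 fun t h1 h2 => ?_⟩
      exact (Finset.disjoint_left.1 hT.1 h1)
        (Finset.mem_of_mem_filter t (Finset.mem_of_mem_erase h2))
    have h1 : IntAt D h₀ u₀ (insert v Tl) :=
      Pool.Agent.K3h66.RS.t_MONO F H G D U₀ h₀ u₀ v (insert v Tl) (Finset.mem_insert_self _ _) hdis
        (fun x hx hx' => Pool.Agent.K3h23.RS.t_TORS Pool.Agent.K3h36.RS.t_NOZETA F H G D v hvS hvn x hx hx')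
        (hgood v hvP hvS hvn)
    have h2 : LInt l (D.delta (insert v Tl) * wval D h₀ f u₀) := by
      refine repl D h₀ u₀ T (insert v Tl) hl ?_ h1 f hf hi
      intro x hx t ht
      have hone : ∀ t' ∈ insert v Tl, LocTriv (F := F) l t' (x : Hˣ) := by
        intro t' ht'
        refine ⟨1, fun hd => hl.one_lt.ne' (Nat.dvd_one.1 hd), fun w hw => ?_⟩
        rw [pow_one]
        exact hx.2 w ((above_iff hw).2 (Finset.mem_coe.2 ht'))
      by_cases h3 : ringChar (𝓞 F ⧸ t.asIdeal) = l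
      · exact locTriv_of_char hl t h3 _ (hunit t ht _ x.2)
      · by_cases h4 : t = t₀
        · rw [h4]
          exact (hv4 (x : Hˣ) (hZ2 _ x.2)).1 (hone v (Finset.mem_insert_self _ _))
        · exact hone t (Finset.mem_insert_of_mem (Finset.mem_erase.2 ⟨h4,
            Finset.mem_filter.2 ⟨ht, h3⟩⟩))
    -- comparison of the `δ`
    set R := T.filter (fun t => ringChar (𝓞 F ⧸ t.asIdeal) = l) with hR
    have h5 : D.delta (T.erase t₀) = D.delta R * D.delta Tl := by
      unfold RubinData.delta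
      rw [← Finset.prod_union]
      · refine Finset.prod_congr ?_ fun _ _ => rfl
        ext t
        simp only [hR, hTl, Finset.mem_union, Finset.mem_filter, Finset.mem_erase]
        constructor
        · rintro ⟨h1, h2⟩
          by_cases h3 : ringChar (𝓞 F ⧸ t.asIdeal) = l
          · exact Or.inl ⟨h2, h3⟩
          · exact Or.inr ⟨h1, h2, h3⟩
        · rintro (⟨h1, h2⟩ | ⟨h1, h2, h3⟩)
          · refine ⟨fun h => ?_, h1⟩
            rw [h] at h2
            exact hchar h2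
          · exact ⟨h1, h2⟩
      · rw [Finset.disjoint_left]
        intro t h1 h2
        exact (Finset.mem_filter.1 (Finset.mem_of_mem_erase h2)).2 (Finset.mem_filter.1 h1).2
    obtain ⟨k, hk⟩ : ((l ^ M : ℕ) : ℤ) ∣ (Ideal.absNorm t₀.asIdeal : ℤ) - Ideal.absNorm v.asIdeal :=
      (Nat.modEq_iff_dvd.1 hv3)
    have h6 : (1 - MonoidAlgebra.single (D.σ t₀)⁻¹ (Ideal.absNorm t₀.asIdeal : ℚ) :
        MonoidAlgebra ℚ G) = (1 - MonoidAlgebra.single (D.σ v)⁻¹ (Ideal.absNorm v.asIdeal : ℚ)) +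
        (l : MonoidAlgebra ℚ G) ^ M * toQ (MonoidAlgebra.single (D.σ v)⁻¹ (-k)) := by
      have h7 : (Ideal.absNorm t₀.asIdeal : ℚ) = Ideal.absNorm v.asIdeal + (l : ℚ) ^ M * k := by
        have : (Ideal.absNorm t₀.asIdeal : ℤ) = Ideal.absNorm v.asIdeal + (l ^ M : ℕ) * k := by
          linarith
        exact_mod_cast this
      have h8 : (l : MonoidAlgebra ℚ G) ^ M * toQ (MonoidAlgebra.single (D.σ v)⁻¹ (-k)) =
          MonoidAlgebra.single (D.σ v)⁻¹ (-((l : ℚ) ^ M * k)) := by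
        have : toQ (MonoidAlgebra.single (D.σ v)⁻¹ (-k)) =
            MonoidAlgebra.single (D.σ v)⁻¹ (-k : ℚ) := by simp [toQ]
        rw [this, ← Nat.cast_pow, ← nsmul_eq_mul, MonoidAlgebra.smul_single, nsmul_eq_mul]
        congr 1
        push_cast
        ring
      rw [h8, hσ, h7, sub_add, ← MonoidAlgebra.single_sub]
      congr 2
      ring
    have h9 : D.delta T = (1 - MonoidAlgebra.single (D.σ t₀)⁻¹ (Ideal.absNorm t₀.asIdeal : ℚ)) *
        D.delta (T.erase t₀) := by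
      rw [← delta_insert D (Finset.notMem_erase t₀ T), Finset.insert_erase ht₀]
    have h10 : D.delta T * wval D h₀ f u₀ =
        D.delta R * (D.delta (insert v Tl) * wval D h₀ f u₀) +
        ((l : MonoidAlgebra ℚ G) ^ M * toQ (MonoidAlgebra.single (D.σ v)⁻¹ (-k))) *
          (D.delta (T.erase t₀) * wval D h₀ f u₀) := by
      rw [h9, h6, delta_insert D hvTl, h5]
      ring
    rw [h10]
    exact LInt.add hl (LInt.mul hl (delta_mem D R) h2) (hMl _ ⟨_, rfl⟩)
  · -- case B
    push Not at hl1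
    have hbig : ∃ t ∈ T, Module.finrank ℚ F + 1 < ringChar (𝓞 F ⧸ t.asIdeal) := by
      rcases hT.2 with ⟨x, hx, y, hy, hxy⟩ | h
      · exact absurd ((hl1 x hx).trans (hl1 y hy).symm) hxy
      · exact h
    obtain ⟨t, ht, htn⟩ := hbig
    have htS : t ∉ D.S := fun h => (Finset.disjoint_left.1 hT.1 h) ht
    have hz := Pool.Agent.K3h36.RS.t_NOZETA F H t (D.unramified t htS) htn
    rw [hl1 t ht] at hz
    obtain ⟨L, i1, i2, i3, Φ, bad, hPv⟩ := approx0 F H G l hl hz
    obtain ⟨v, hvP, hvT', hvS, hvn, hvF⟩ := exists_good D hP Φ (bad ∪ T)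
    have hvT : v ∉ T := fun h => hvT' (Finset.mem_union_right _ h)
    obtain ⟨hv1, hv2⟩ := hPv v (fun h => hvT' (Finset.mem_union_left _ h)) hvF
    have hσ : D.σ v = 1 := Pool.Agent.K3h23.RS.t_FROBUNIQ F H G v (D.unramified v hvS) _ _ (D.frob v hvS) hv1
    have h2 : LInt l (D.delta {v} * wval D h₀ f u₀) := by
      refine repl D h₀ u₀ T {v} hl ?_ (hgood v hvP hvS hvn) f hf hi
      intro x _ t ht
      exact locTriv_of_char hl t (hl1 t ht) _ (hunit t ht _ x.2)
    have hnorm : 1 ≤ Ideal.absNorm v.asIdeal := by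
      have h0 : Ideal.absNorm v.asIdeal ≠ 0 := by
        rw [Ne, Ideal.absNorm_eq_zero_iff]
        exact v.ne_bot
      omega
    have h3 : D.delta {v} * wval D h₀ f u₀ =
        -(((Ideal.absNorm v.asIdeal - 1 : ℕ) : MonoidAlgebra ℚ G) * wval D h₀ f u₀) := by
      unfold RubinData.delta
      rw [Finset.prod_singleton, hσ, inv_one, Nat.cast_sub hnorm, Nat.cast_one,
        ← MonoidAlgebra.natCast_def]
      ring
    rw [h3] at h2
    have h4 : LInt l (((Ideal.absNorm v.asIdeal - 1 : ℕ) : MonoidAlgebra ℚ G) *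
        wval D h₀ f u₀) := by
      have h5 := LInt.mul hl (neg_mem (one_mem (toQ (G := G)).range)) h2
      rwa [neg_mul_neg, one_mul] at h5
    exact LInt.mul hl (delta_mem D T) (LInt.of_nat hl hv2 h4)


end Pool.Agent.Zk81.RS
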