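import Pool.Agent.Zk81.RS.All

/-!
# Rubin's lattices for all `T` are determined by finitely many sets `{v}`
-/

set_option autoImplicit false
set_option linter.all false

open NumberField IsDedekindDomain Filter Topology

noncomputable section

namespace Pool.Agent.Zk81.RS

open Pool.Agent.K3h30.RS

variable {F H G : Type} [Field F] [NumberField F] [Field H] [NumberField H] [Algebra F H]
  [CommGroup G] [Finite G] [MulSemiringAction G H]

/-- bounded denominators: `w ^ r δ_T det (f_i (x_j))` is integral if the `f_i` are integral on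
`U_{S,T}` -/
theorem denom [hG : IsGaloisGroup G F H] (D : RubinData F H G) (w : ℕ)
    (hw : ∀ a : Additive (US D), IsOfFinAddOrder a → w • a = 0)
    (T : Finset (HeightOneSpectrum (𝓞 F))) (hdis : Disjoint D.S T)
    (f : Fin D.r → Additive (US D) →+ MonoidAlgebra ℚ G) (hf : ∀ i, IsEquiv D (f i))
    (hi : ∀ i, IntOn D T (f i)) (x : Fin D.r → Additive (US D)) :
    (w : MonoidAlgebra ℚ G) ^ D.r *
      (D.delta T * Matrix.det (Matrix.of fun i j => f i (x j))) ∈ (toQ (G := G)).range := by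
  classical
  letI := actionA (H := H) (G := G) Pool.Agent.K3h25.RS.t_TRANS
    (D.S : Set (HeightOneSpectrum (𝓞 F))) ∅
  obtain ⟨d, m, hm0, hm, hdec, -⟩ := decompose Pool.Agent.K3h73.RS.t_LAM Pool.Agent.K3h12.RSE.t_EXT
    Pool.Agent.K3h44.RS.t_DLOG Pool.Agent.K3h44.RS.t_FROBU Pool.Agent.K3h25.RS.t_TRANS
    Pool.Agent.K3h25.RS.t_OVER D T hdis w hw
  choose ψ hψ using fun i => exists_restrict D T (f i) (hf i) (hi i)
  choose y a hy hya using fun i => hdec (ψ i)
  have h1 : ∀ i (x : Additive (US D)), (w : MonoidAlgebra ℚ G) * f i x =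
      toQ (y i x) + ∑ t : T, toQ (a i t) * (d t).Λ x := by
    intro i x
    apply natCast_cancel hm0
    have h0 := hya i (Additive.toMul x) (hm (Additive.toMul x))
    rw [hψ] at h0
    have h3 : (Additive.ofMul (⟨((Additive.toMul x : US D) : Hˣ) ^ m,
        U_le D T (hm (Additive.toMul x))⟩ : US D)) = m • x := rfl
    have h2 : f i (Additive.ofMul ⟨((Additive.toMul x : US D) : Hˣ) ^ m,
        U_le D T (hm (Additive.toMul x))⟩) = m * f i x := by
      rw [h3, map_nsmul, nsmul_eq_mul]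
    have h4 : (w : MonoidAlgebra ℚ G) * ((m : MonoidAlgebra ℚ G) * f i x) =
        m * (toQ (y i x) + ∑ t : T, toQ (a i t) * (d t).Λ x) := by
      rw [← h2]
      exact h0
    rw [← h4]
    ring
  have h2 : (w : MonoidAlgebra ℚ G) ^ D.r * Matrix.det (Matrix.of fun i j => f i (x j)) =
      Matrix.det (Matrix.of fun i j => toQ (y i (x j)) +
        ∑ t ∈ (Finset.univ : Finset T), toQ (a i t) * (d t).Λ (x j)) := by
    rw [← det_natCast_mul]
    congr 1
    ext i j : 1
    simp only [Matrix.of_apply]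
    exact h1 i (x j)
  have h3 : D.delta T = ∏ t ∈ (Finset.univ : Finset T),
      (1 - MonoidAlgebra.single (D.σ t.1)⁻¹ (Ideal.absNorm t.1.asIdeal : ℚ)) := by
    unfold RubinData.delta
    rw [Finset.prod_coe_sort T (fun t =>
      (1 - MonoidAlgebra.single (D.σ t)⁻¹ (Ideal.absNorm t.asIdeal : ℚ) : MonoidAlgebra ℚ G))]
  rw [mul_left_comm, h2, h3]
  refine Pool.Agent.K3h24.RS.Det.plain (toQ (G := G)).range Finset.univ
    (fun t : T => (1 - MonoidAlgebra.single (D.σ t.1)⁻¹ (Ideal.absNorm t.1.asIdeal : ℚ) :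
      MonoidAlgebra ℚ G)) D.r (fun i j => toQ (y i (x j))) (fun i t => toQ (a i t))
    (fun t j => (d t).Λ (x j)) (fun i j => ⟨_, rfl⟩) (fun i t => ⟨_, rfl⟩) ?_ ?_
  · intro t _
    refine sub_mem (one_mem _) ?_
    refine ⟨MonoidAlgebra.single (D.σ t.1)⁻¹ (Ideal.absNorm t.1.asIdeal : ℤ), ?_⟩
    simp [toQ]
  · intro t _ j
    exact (d t).integral (x j)

/-- generators of a finitely generated group -/
theorem exists_generators (A : Type) [AddCommGroup A] [hA : AddGroup.FG A] :
    ∃ (g : ℕ) (a : Fin g → A), ∀ x : A, ∃ c : Fin g → ℤ, x = ∑ k, c k • a k := by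
  have h0 : Module.Finite ℤ A := Module.Finite.iff_addGroup_fg.2 hA
  obtain ⟨g, a, ha⟩ := Module.Finite.exists_fin (R := ℤ) (M := A)
  refine ⟨g, a, fun x => ?_⟩
  have hx : x ∈ Submodule.span ℤ (Set.range a) := by
    rw [ha]
    exact Submodule.mem_top
  obtain ⟨c, hc⟩ := (Submodule.mem_span_range_iff_exists_fun ℤ).1 hx
  exact ⟨c, hc.symm⟩

/-- the determinant is multilinear in the columns -/
theorem det_expand {R A : Type} [CommRing R] [AddCommGroup A] {r g : ℕ} (f : Fin r → A →+ R)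
    (a : Fin g → A) (c : Fin r → Fin g → ℤ) (x : Fin r → A) (hx : ∀ j, x j = ∑ k, c j k • a k) :
    Matrix.det (Matrix.of fun i j => f i (x j)) =
      ∑ k : Fin r → Fin g, (∏ j, (c j (k j) : R)) *
        Matrix.det (Matrix.of fun i j => f i (a (k j))) := by
  classical
  rw [← Matrix.det_transpose]
  have h1 : (Matrix.of fun i j => f i (x j)).transpose =
      fun j => ∑ k, (c j k : R) • (fun i => f i (a k)) := by
    ext j i
    simp only [Matrix.transpose_apply, Matrix.of_apply, Finset.sum_apply, Pi.smul_apply,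
      smul_eq_mul]
    rw [hx, map_sum]
    refine Finset.sum_congr rfl fun k _ => ?_
    rw [map_zsmul, zsmul_eq_mul]
  have h2 := (Matrix.detRowAlternating (n := Fin r) (R := R)).toMultilinearMap.map_sum
    (fun j k => (c j k : R) • (fun i => f i (a k)))
  rw [h1]
  refine h2.trans ?_
  refine Finset.sum_congr rfl fun k _ => ?_
  have h3 := (Matrix.detRowAlternating (n := Fin r) (R := R)).toMultilinearMap.map_smul_univ
    (fun j => (c j (k j) : R)) (fun j i => f i (a (k j)))
  refine h3.trans ?_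
  rw [smul_eq_mul]
  congr 1
  rw [← Matrix.det_transpose]
  rfl

/-- finitely many one-element sets suffice -/
theorem exists_finite [hG : IsGaloisGroup G F H] (D : RubinData F H G)
    (Q : HeightOneSpectrum (𝓞 F) → Prop) (hQ : ∀ v, Q v → v ∉ D.S) :
    ∃ V : Finset (HeightOneSpectrum (𝓞 F)), (∀ v ∈ V, Q v) ∧
      ∀ (U₀ : Subgroup Hˣ) (h₀ : U₀ ≤ US D) (u : Wedge G D.r U₀),
        (∀ v ∈ V, IntAt D h₀ u {v}) → ∀ v, Q v → IntAt D h₀ u {v} := by
  classical
  have hfg : AddGroup.FG (Additive (US D)) := fgA Pool.Agent.K3h25.RS.t_OVER D.S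
  obtain ⟨w, hw0, hw⟩ := exists_torsion (Additive (US D))
  obtain ⟨g, a, ha⟩ := exists_generators (Additive (US D))
  -- the index set and the functions
  let J : Type := {p : HeightOneSpectrum (𝓞 F) ×
    (Fin D.r → Additive (US D) →+ MonoidAlgebra ℚ G) //
    Q p.1 ∧ (∀ i, IsEquiv D (p.2 i)) ∧ ∀ i, IntOn D {p.1} (p.2 i)}
  let K : J → ((Fin D.r → Fin g) → MonoidAlgebra ℚ G) := fun p k =>
    D.delta {p.1.1} * Matrix.det (Matrix.of fun i j => p.1.2 i (a (k j)))
  let ι₀ : ((Fin D.r → Fin g) → MonoidAlgebra ℤ G) →+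
      ((Fin D.r → Fin g) → MonoidAlgebra ℚ G) :=
    { toFun := fun z k => ((w : ℚ) ^ D.r)⁻¹ • toQ (z k)
      map_zero' := by
        funext k
        simp
      map_add' := by
        intro y z
        funext k
        simp [smul_add] }
  let ι := ι₀.toIntLinearMap
  have hw' : ((w : ℚ) ^ D.r) ≠ 0 := pow_ne_zero _ (by exact_mod_cast hw0.ne')
  have hι : Set.range K ⊆ (LinearMap.range ι : Set ((Fin D.r → Fin g) → MonoidAlgebra ℚ G)) := by
    rintro _ ⟨p, rfl⟩
    have h1 : ∀ k : Fin D.r → Fin g, ∃ z : MonoidAlgebra ℤ G,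
        toQ z = (w : MonoidAlgebra ℚ G) ^ D.r * K p k := fun k =>
      denom D w hw {p.1.1} (Finset.disjoint_singleton_right.2 (hQ _ p.2.1)) p.1.2 p.2.2.1 p.2.2.2
        (fun j => a (k j))
    choose z hz using h1
    refine ⟨z, ?_⟩
    funext k
    change ((w : ℚ) ^ D.r)⁻¹ • toQ (z k) = K p k
    rw [hz]
    have h2 : (w : MonoidAlgebra ℚ G) ^ D.r * K p k = ((w : ℚ) ^ D.r) • K p k := by
      rw [Algebra.smul_def, map_pow, map_natCast]
    rw [h2, smul_smul, inv_mul_cancel₀ hw', one_smul]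
  have hfin : Module.Finite ℤ (MonoidAlgebra ℤ G) := inferInstance
  have hfgE : (LinearMap.range ι).FG := by
    rw [LinearMap.range_eq_map]
    exact Module.Finite.fg_top.map ι
  have hspan : (Submodule.span ℤ (Set.range K)).FG :=
    Submodule.FG.of_le hfgE (Submodule.span_le.2 hι)
  obtain ⟨s', hs', hspan'⟩ := (Submodule.fg_span_iff_fg_span_finset_subset _).1 hspan
  have hpre : ∀ κ : s', ∃ p : J, K p = κ.1 := fun κ => hs' κ.2
  choose p hp using hpre
  refine ⟨Finset.univ.image (fun κ : s' => (p κ).1.1), ?_, ?_⟩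
  · intro v hv
    obtain ⟨κ, -, rfl⟩ := Finset.mem_image.1 hv
    exact (p κ).2.1
  · intro U₀ h₀ u hu v hv f hf hi
    let x : Fin u.n → Fin D.r → Additive (US D) := fun n j =>
      Additive.ofMul ⟨(u.x n j : Hˣ), h₀ (u.x n j).2⟩
    choose c hc using fun n j => ha (x n j)
    have hev : ∀ q : J, D.delta {q.1.1} * wval D h₀ q.1.2 u =
        ∑ n, u.c n * ∑ k : Fin D.r → Fin g,
          (∏ j, (c n j (k j) : MonoidAlgebra ℚ G)) * K q k := by
      intro q
      unfold wval
      rw [Finset.mul_sum]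
      refine Finset.sum_congr rfl fun n _ => ?_
      have h1 := det_expand q.1.2 a (c n) (x n) (hc n)
      change D.delta _ * (u.c n * Matrix.det (Matrix.of fun i j => q.1.2 i (x n j))) = _
      rw [h1, mul_left_comm]
      congr 1
      rw [Finset.mul_sum]
      refine Finset.sum_congr rfl fun k _ => ?_
      simp only [K]
      ring
    let N : Submodule ℤ ((Fin D.r → Fin g) → MonoidAlgebra ℚ G) :=
      { carrier := {κ | ∑ n, u.c n * ∑ k : Fin D.r → Fin g,
          (∏ j, (c n j (k j) : MonoidAlgebra ℚ G)) * κ k ∈ (toQ (G := G)).range}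
        add_mem' := by
          intro κ κ' h h'
          change ∑ n, u.c n * ∑ k : Fin D.r → Fin g,
            (∏ j, (c n j (k j) : MonoidAlgebra ℚ G)) * (κ k + κ' k) ∈ (toQ (G := G)).range
          have e : ∑ n, u.c n * ∑ k : Fin D.r → Fin g,
              (∏ j, (c n j (k j) : MonoidAlgebra ℚ G)) * (κ k + κ' k) =
              (∑ n, u.c n * ∑ k : Fin D.r → Fin g,
                (∏ j, (c n j (k j) : MonoidAlgebra ℚ G)) * κ k) +
              ∑ n, u.c n * ∑ k : Fin D.r → Fin g,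
                (∏ j, (c n j (k j) : MonoidAlgebra ℚ G)) * κ' k := by
            rw [← Finset.sum_add_distrib]
            refine Finset.sum_congr rfl fun n _ => ?_
            rw [← mul_add, ← Finset.sum_add_distrib]
            simp only [mul_add]
          rw [e]
          exact add_mem h h'
        zero_mem' := by
          change ∑ n, u.c n * ∑ k : Fin D.r → Fin g,
            (∏ j, (c n j (k j) : MonoidAlgebra ℚ G)) * (0 : MonoidAlgebra ℚ G) ∈
              (toQ (G := G)).range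
          simp
        smul_mem' := by
          intro z κ h
          change ∑ n, u.c n * ∑ k : Fin D.r → Fin g,
            (∏ j, (c n j (k j) : MonoidAlgebra ℚ G)) * (z • κ k) ∈ (toQ (G := G)).range
          have e : ∑ n, u.c n * ∑ k : Fin D.r → Fin g,
              (∏ j, (c n j (k j) : MonoidAlgebra ℚ G)) * (z • κ k) =
              z • ∑ n, u.c n * ∑ k : Fin D.r → Fin g,
                (∏ j, (c n j (k j) : MonoidAlgebra ℚ G)) * κ k := by
            rw [Finset.smul_sum]
            refine Finset.sum_congr rfl fun n _ => ?_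
            rw [← mul_smul_comm, Finset.smul_sum]
            congr 1
            refine Finset.sum_congr rfl fun k _ => ?_
            rw [mul_smul_comm]
          rw [e]
          exact zsmul_mem h z }
    have hle : Submodule.span ℤ (s' : Set ((Fin D.r → Fin g) → MonoidAlgebra ℚ G)) ≤ N := by
      rw [Submodule.span_le]
      intro κ hκ
      have h1 := hu _ (Finset.mem_image.2 ⟨⟨κ, hκ⟩, Finset.mem_univ _, rfl⟩) (p ⟨κ, hκ⟩).1.2
        (p ⟨κ, hκ⟩).2.2.1 (p ⟨κ, hκ⟩).2.2.2
      rw [hev, hp] at h1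
      exact h1
    let q : J := ⟨(v, f), hv, hf, hi⟩
    have h1 : K q ∈ Submodule.span ℤ (s' : Set ((Fin D.r → Fin g) → MonoidAlgebra ℚ G)) := by
      rw [← hspan']
      exact Submodule.subset_span ⟨q, rfl⟩
    have h2 := hle h1
    have h3 := hev q
    change D.delta {v} * wval D h₀ f u = _ at h3
    rw [h3]
    exact h2

/-- the lattices for all `T` are determined by finitely many sets `{v}` with `v` in a rich set -/
theorem exists_finite_rich [hG : IsGaloisGroup G F H] (D : RubinData F H G)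
    {P : HeightOneSpectrum (𝓞 F) → Prop} (hP : Rich P) :
    ∃ V : Finset (HeightOneSpectrum (𝓞 F)), V.Nonempty ∧ (∀ v ∈ V, P v ∧ D.Allowed {v}) ∧
      ∀ (U₀ : Subgroup Hˣ) (h₀ : U₀ ≤ US D) (u : Wedge G D.r U₀),
        (∀ v ∈ V, IntAt D h₀ u {v}) → ∀ T, D.Allowed T → IntAt D h₀ u T := by
  classical
  have hall : ∀ v : HeightOneSpectrum (𝓞 F), v ∉ D.S →
      Module.finrank ℚ F + 1 < ringChar (𝓞 F ⧸ v.asIdeal) → D.Allowed {v} := fun v h1 h2 =>
    ⟨Finset.disjoint_singleton_right.2 h1, Or.inr ⟨v, Finset.mem_singleton_self v, h2⟩⟩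
  obtain ⟨V, hV1, hV2⟩ := exists_finite D
    (fun v => P v ∧ v ∉ D.S ∧ Module.finrank ℚ F + 1 < ringChar (𝓞 F ⧸ v.asIdeal))
    (fun v h => h.2.1)
  obtain ⟨v₀, h1, -, h2, h3, -⟩ := exists_good D hP (AlgEquiv.refl : F ≃ₐ[F] F) ∅
  refine ⟨insert v₀ V, Finset.insert_nonempty _ _, ?_, ?_⟩
  · intro v hv
    rcases Finset.mem_insert.1 hv with rfl | hv
    · exact ⟨h1, hall _ h2 h3⟩
    · obtain ⟨h4, h5, h6⟩ := hV1 v hv
      exact ⟨h4, hall _ h5 h6⟩
  · intro U₀ h₀ u hu T hT
    refine intAt_all D hP h₀ u (fun v hv1 hv2 hv3 => ?_) T hT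
    exact hV2 U₀ h₀ u (fun v hv => hu v (Finset.mem_insert_of_mem hv)) v ⟨hv1, hv2, hv3⟩

/-- Rubin's conjecture for all `T` from finitely many sets `{v}` -/
theorem rubin_all [hG : IsGaloisGroup G F H] (D : RubinData F H G)
    {V : Finset (HeightOneSpectrum (𝓞 F))} (hne : V.Nonempty)
    (hV : ∀ (U₀ : Subgroup Hˣ) (h₀ : U₀ ≤ US D) (u : Wedge G D.r U₀),
        (∀ v ∈ V, IntAt D h₀ u {v}) → ∀ T, D.Allowed T → IntAt D h₀ u T)
    (h : ∀ v ∈ V, D.Rubin {v}) (T : Finset (HeightOneSpectrum (𝓞 F))) (hT : D.Allowed T) :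
    D.Rubin T := by
  obtain ⟨v₀, hv₀⟩ := hne
  obtain ⟨u, e, -, s⟩ := h v₀ hv₀
  obtain ⟨u₀, e₀, s₀⟩ := stark_all D ⟨u, e, s⟩ ∅ (Finset.disjoint_empty_right _)
  refine rubin_of_intAt D u₀ e₀ s₀ T hT.1 (hV _ (U_le D ∅) u₀ (fun v hv => ?_) T hT)
  exact intAt_of_rubin (Pool.Agent.K3h3.RS.t_UNIQ
    (Pool.Agent.K3h40.RS.t_SPANREG Pool.Agent.K3h40.RS.t_LOGINJ)) D (U_le D ∅) u₀ e₀ s₀ {v} (h v hv)

end Pool.Agent.Zk81.RS
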