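import Pool.Agent.K3h30.RS.Dich

/-!
# Rubin's conjecture: prime ideals in a Frobenius class

`approx` and `approx0` are the theorems `t_APPROX` and `t_APPROX0` of the starting library (bricks
APPROX, APPROX0 of the project RS) with a Frobenius class in the place of a set of positive
proportion; the proofs are the same.
-/

set_option autoImplicit false
set_option linter.all false

open NumberField IsDedekindDomain Polynomial

noncomputable section

namespace Pool.Agent.Zk81.RS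

open Pool.Agent.K3h30.RS

/-- The automorphism `Φ` of the extension `L` of `F` acts as the Frobenius automorphism at some prime
ideal of `L` over `v`. -/
def FrobIn {F L : Type} [Field F] [NumberField F] [Field L] [NumberField L] [Algebra F L]
    (Φ : L ≃ₐ[F] L) (v : HeightOneSpectrum (𝓞 F)) : Prop :=
  ∃ P : HeightOneSpectrum (𝓞 L), Above {v} P ∧
    ∀ x : 𝓞 L, P.valuation L (Φ (x : L) - (x : L) ^ (Ideal.absNorm v.asIdeal)) < 1

/-- The set `P` of prime ideals meets every Frobenius class of every finite extension of `F` outside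
every finite set. -/
def Rich {F : Type} [Field F] [NumberField F] (P : HeightOneSpectrum (𝓞 F) → Prop) : Prop :=
  ∀ (L : Type) [Field L] [NumberField L] [Algebra F L] (Φ : L ≃ₐ[F] L)
    (bad : Finset (HeightOneSpectrum (𝓞 F))), ∃ v, P v ∧ v ∉ bad ∧ FrobIn Φ v

section

open Pool.Agent.K3h8.RS Pool.Agent.K3h43.RS

theorem approx (F H G : Type) [Field F] [NumberField F] [Field H] [NumberField H] [Algebra F H]
    [CommGroup G] [Finite G] [MulSemiringAction G H] [IsGaloisGroup G F H]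
    (t : HeightOneSpectrum (𝓞 F)) (γ : G) (l M : ℕ) (Z : Finset Hˣ) (hfrob : IsFrob (H := H) t γ)
    (hsq : Squarefree (t.asIdeal.map (algebraMap (𝓞 F) (𝓞 H)))) (hl : l.Prime)
    (hchar : ringChar (𝓞 F ⧸ t.asIdeal) ≠ l)
    (hZ : ∀ z ∈ Z, ∀ w : HeightOneSpectrum (𝓞 H), Above {t} w → w.valuation H (z : H) = 1) :
    ∃ (L : Type) (_ : Field L) (_ : NumberField L) (_ : Algebra F L) (Φ : L ≃ₐ[F] L)
      (bad : Finset (HeightOneSpectrum (𝓞 F))), ∀ v, v ∉ bad → FrobIn Φ v →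
      IsFrob (H := H) v γ ∧ ringChar (𝓞 F ⧸ v.asIdeal) ≠ l ∧
      Ideal.absNorm v.asIdeal ≡ Ideal.absNorm t.asIdeal [MOD l ^ M] ∧
      ∀ x ∈ Subgroup.closure (Z : Set Hˣ), LocTriv (F := F) l v x ↔ LocTriv (F := F) l t x := by
  classical
  letI := Fintype.ofFinite G
  set q := Ideal.absNorm t.asIdeal with hq
  have hq1 : 1 < q := by
    have h0 : Ideal.absNorm t.asIdeal ≠ 0 := by
      intro h
      exact t.ne_bot (Ideal.absNorm_eq_zero_iff.mp h)
    have h1 : Ideal.absNorm t.asIdeal ≠ 1 := by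
      intro h
      exact t.isPrime.ne_top (Ideal.absNorm_eq_one_iff.mp h)
    omega
  have hford : 0 < orderOf γ := orderOf_pos γ
  have hq2 : 1 < q ^ orderOf γ := Nat.one_lt_pow hford.ne' hq1
  obtain ⟨a, m, hm, ham⟩ := Nat.exists_eq_pow_mul_and_not_dvd (n := q ^ orderOf γ - 1)
    (by omega) l hl.ne_one
  have hqN : q ^ orderOf γ = l ^ a * m + 1 := by omega
  set M' := max M (a + 1) with hM'
  have hla : 0 < l ^ a := pow_pos hl.pos a
  have hlM : 0 < l ^ M' := pow_pos hl.pos M'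
  let f0 : H[X] := (X ^ (l ^ M') - C 1) *
    ∏ z ∈ Z, ∏ γ' : G, (X ^ (l ^ a) - C (γ' • (z : H)))
  have hf0 : f0 ≠ 0 := by
    refine mul_ne_zero (X_pow_sub_C_ne_zero hlM _) (Finset.prod_ne_zero_iff.mpr fun z _ =>
      Finset.prod_ne_zero_iff.mpr fun γ' _ => X_pow_sub_C_ne_zero hla _)
  obtain ⟨L, _, _, _, _, _, hgal, hL⟩ := exists_gal F H f0
  have hroot : ∀ g : H[X], g ∣ f0 → (g.map (algebraMap H L)).Splits := by
    intro g hg
    exact Splits.of_dvd hL (Polynomial.map_ne_zero hf0) (Polynomial.map_dvd _ hg)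
  -- root of unity
  have hζ : ∃ ζ : Lˣ, orderOf ζ = l ^ M' := by
    have h1 : cyclotomic (l ^ M') H ∣ f0 := by
      refine Dvd.dvd.mul_right ?_ _
      rw [map_one]
      exact cyclotomic.dvd_X_pow_sub_one (l ^ M') H
    have h2 := hroot _ h1
    rw [map_cyclotomic] at h2
    obtain ⟨ζ, hζ⟩ := h2.exists_eval_eq_zero (degree_cyclotomic_pos (l ^ M') L hlM).ne'
    have h3 : IsPrimitiveRoot ζ (l ^ M') := (isRoot_cyclotomic_iff_charZero hlM).mp hζ
    have h4 := h3.isUnit_unit hlM.ne'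
    exact ⟨_, h4.eq_orderOf.symm⟩
  obtain ⟨ζ, hζ⟩ := hζ
  -- roots
  have hα : ∀ z ∈ Z, ∀ γ' : G, ∃ y : Lˣ, y ^ (l ^ a) =
      Units.map (algebraMap H L : H →* L) (act γ' z) := by
    intro z hz γ'
    have h1 : (X ^ (l ^ a) - C (γ' • (z : H))) ∣ f0 := by
      refine Dvd.dvd.mul_left ?_ _
      exact (Finset.dvd_prod_of_mem (fun γ' : G => (X ^ (l ^ a) - C (γ' • (z : H))))
        (Finset.mem_univ γ')).trans (Finset.dvd_prod_of_mem
          (fun z : Hˣ => ∏ γ' : G, (X ^ (l ^ a) - C (γ' • (z : H)))) hz)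
    have h2 := hroot _ h1
    rw [Polynomial.map_sub, Polynomial.map_pow, map_X, map_C] at h2
    obtain ⟨α, hα⟩ := h2.exists_eval_eq_zero (by
      rw [degree_X_pow_sub_C hla]
      exact_mod_cast hla.ne')
    rw [eval_sub, eval_pow, eval_X, eval_C, sub_eq_zero] at hα
    have hα0 : α ≠ 0 := by
      rintro rfl
      rw [zero_pow hla.ne'] at hα
      have h3 : algebraMap H L ((act γ' z : Hˣ) : H) = 0 := hα.symm
      exact (act γ' z).ne_zero ((map_eq_zero _).mp h3)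
    refine ⟨Units.mk0 α hα0, ?_⟩
    apply Units.ext
    rw [Units.val_pow_eq_pow_val, Units.val_mk0]
    exact hα
  have hαcl : ∀ x ∈ Subgroup.closure (Z : Set Hˣ), ∀ γ' : G, ∃ y : Lˣ, y ^ (l ^ a) =
      Units.map (algebraMap H L : H →* L) (act γ' x) := by
    intro x hx
    induction hx using Subgroup.closure_induction with
    | mem z hz => exact hα z hz
    | one =>
      intro γ'
      refine ⟨1, ?_⟩
      have : act γ' (1 : Hˣ) = 1 := map_one _
      rw [one_pow, this, map_one]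
    | mul x y _ _ hx hy =>
      intro γ'
      obtain ⟨u, hu⟩ := hx γ'
      obtain ⟨u', hu'⟩ := hy γ'
      refine ⟨u * u', ?_⟩
      have : act γ' (x * y) = act γ' x * act γ' y := map_mul _ _ _
      rw [mul_pow, this, map_mul, hu, hu']
    | inv x _ hx =>
      intro γ'
      obtain ⟨u, hu⟩ := hx γ'
      refine ⟨u⁻¹, ?_⟩
      have : act γ' (x⁻¹) = (act γ' x)⁻¹ := map_inv _ _
      rw [inv_pow, this, map_inv, hu]
  -- the prime ideal over `t`
  obtain ⟨wt, hwt⟩ := exists_over (L := H) t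
  obtain ⟨Pt, hPt⟩ := exists_over (L := L) wt
  have hPt' : Pt.asIdeal.comap (algebraMap (𝓞 F) (𝓞 L)) = t.asIdeal := by
    have e : algebraMap (𝓞 F) (𝓞 L) = (algebraMap (𝓞 H) (𝓞 L)).comp (algebraMap (𝓞 F) (𝓞 H)) := by
      ext x
      exact IsScalarTower.algebraMap_apply F H L (x : F)
    rw [← hwt, ← hPt, Ideal.comap_comap, e]
  obtain ⟨Φ, hΦt⟩ := exists_frob F L t Pt hPt'
  have hres : ∀ x : H, Φ (algebraMap H L x) = algebraMap H L (γ • x) := fun x =>
    restrict t wt hwt hsq Pt hPt Φ hΦt γ (hfrob wt ⟨t, rfl, hwt⟩) x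
  -- the exceptional prime ideals
  have hbad1 : {v : HeightOneSpectrum (𝓞 F) | v.valuation F (l : F) < 1}.Finite :=
    finite_lt _ (by exact_mod_cast hl.ne_zero)
  have hbad2 : ∀ z : Hˣ, {v : HeightOneSpectrum (𝓞 F) | ∃ w : HeightOneSpectrum (𝓞 H),
      w.valuation H (z : H) < 1 ∧ w.asIdeal.comap (algebraMap (𝓞 F) (𝓞 H)) = v.asIdeal}.Finite :=
    fun z => finite_under _ z.ne_zero
  have hbad : ({v : HeightOneSpectrum (𝓞 F) | v.valuation F (l : F) < 1} ∪
      ⋃ z ∈ Z, ({v : HeightOneSpectrum (𝓞 F) | ∃ w : HeightOneSpectrum (𝓞 H),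
        w.valuation H (z : H) < 1 ∧ w.asIdeal.comap (algebraMap (𝓞 F) (𝓞 H)) = v.asIdeal} ∪
        {v : HeightOneSpectrum (𝓞 F) | ∃ w : HeightOneSpectrum (𝓞 H),
        w.valuation H ((z⁻¹ : Hˣ) : H) < 1 ∧
          w.asIdeal.comap (algebraMap (𝓞 F) (𝓞 H)) = v.asIdeal})).Finite :=
    hbad1.union (Z.finite_toSet.biUnion fun z _ => (hbad2 z).union (hbad2 z⁻¹))
  refine ⟨L, inferInstance, inferInstance, inferInstance, Φ, hbad.toFinset, ?_⟩
  rintro v hv ⟨P, ⟨v', hv', hPv⟩, hΦv⟩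
  rw [Set.mem_singleton_iff] at hv'
  subst hv'
  rw [Set.Finite.mem_toFinset, Set.mem_union, not_or] at hv
  obtain ⟨hv1, hv2⟩ := hv
  obtain ⟨w, hPw, hw⟩ := exists_under F H L v' P hPv
  obtain ⟨htr1, htr2⟩ := Pool.Agent.K3h25.RS.t_TRANS F H G v' w ⟨v', rfl, hw⟩
  have hlv : v'.valuation F (l : F) = 1 := by
    refine le_antisymm ?_ (not_lt.mp hv1)
    have h1 : v'.valuation F (algebraMap (𝓞 F) F (l : 𝓞 F)) ≤ 1 :=
      v'.valuation_le_one (K := F) (l : 𝓞 F)
    rwa [map_natCast] at h1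
  have hlt : t.valuation F (l : F) = 1 := (ringChar_iff t l hl).mp hchar
  have hlP : P.valuation L (l : L) = 1 := by
    have h1 := val_eq v' P hPv _ hlv
    rwa [map_natCast] at h1
  have hlPt : Pt.valuation L (l : L) = 1 := by
    have h1 := val_eq t Pt hPt' _ hlt
    rwa [map_natCast] at h1
  have hZv : ∀ z ∈ Z, ∀ w' : HeightOneSpectrum (𝓞 H), Above {v'} w' →
      w'.valuation H (z : H) = 1 := by
    rintro z hz w' ⟨v'', hv'', hw'⟩
    rw [Set.mem_singleton_iff] at hv''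
    subst hv''
    have h1 : ¬ w'.valuation H (z : H) < 1 := by
      intro h
      apply hv2
      exact Set.mem_biUnion (show z ∈ (Z : Set Hˣ) from hz) (Or.inl ⟨w', h, hw'⟩)
    have h2 : ¬ w'.valuation H ((z⁻¹ : Hˣ) : H) < 1 := by
      intro h
      apply hv2
      exact Set.mem_biUnion (show z ∈ (Z : Set Hˣ) from hz) (Or.inr ⟨w', h, hw'⟩)
    refine le_antisymm ?_ (not_lt.mp h1)
    rw [Units.val_inv_eq_inv_val, map_inv₀] at h2
    by_contra hcon
    exact h2 (inv_lt_one_of_one_lt₀ (not_le.mp hcon))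
  have hcl : ∀ v₀ : HeightOneSpectrum (𝓞 F), (∀ z ∈ Z, ∀ w' : HeightOneSpectrum (𝓞 H),
      Above {v₀} w' → w'.valuation H (z : H) = 1) → ∀ x ∈ Subgroup.closure (Z : Set Hˣ),
      ∀ w' : HeightOneSpectrum (𝓞 H), Above {v₀} w' → w'.valuation H (x : H) = 1 := by
    intro v₀ h x hx w' hw'
    have h1 : Subgroup.closure (Z : Set Hˣ) ≤ unitsAt w' := by
      rw [Subgroup.closure_le]
      intro z hz
      exact h z hz w' hw'
    exact h1 hx
  have hmodM' : Ideal.absNorm v'.asIdeal ≡ q [MOD l ^ M'] := by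
    have hζ1 : ζ ^ (l ^ M') = 1 := by rw [← hζ]; exact pow_orderOf_eq_one ζ
    have h1 := frob_zeta v' P Φ hΦv l M' hlP ζ hζ1
    have h2 := frob_zeta t Pt Φ hΦt l M' hlPt ζ hζ1
    rw [h1] at h2
    rw [← hζ]
    exact pow_eq_pow_iff_modEq.mp h2
  have hmoda : Ideal.absNorm v'.asIdeal ≡ q [MOD l ^ (a + 1)] :=
    hmodM'.of_dvd (pow_dvd_pow l (le_max_right _ _))
  -- the exponent for `v`
  obtain ⟨m', hm', hvN⟩ : ∃ m' : ℕ, ¬ l ∣ m' ∧
      Ideal.absNorm v'.asIdeal ^ orderOf γ = l ^ a * m' + 1 := by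
    have h1 : Ideal.absNorm v'.asIdeal ^ orderOf γ ≡ l ^ a * m + 1 [MOD l ^ (a + 1)] := by
      rw [← hqN]; exact hmoda.pow _
    have h0 : 0 < Ideal.absNorm v'.asIdeal ^ orderOf γ := by
      refine pow_pos (Nat.pos_of_ne_zero fun h => ?_) _
      exact v'.ne_bot (Ideal.absNorm_eq_zero_iff.mp h)
    obtain ⟨k, hk⟩ : ∃ k, Ideal.absNorm v'.asIdeal ^ orderOf γ = k + 1 :=
      ⟨_, (Nat.succ_pred_eq_of_pos h0).symm⟩
    rw [hk] at h1
    have h2 : k ≡ l ^ a * m [MOD l ^ (a + 1)] := Nat.ModEq.add_right_cancel' 1 h1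
    have h3 : l ^ a ∣ k := by
      have h4 : k ≡ l ^ a * m [MOD l ^ a] := h2.of_dvd (pow_dvd_pow l (Nat.le_succ a))
      exact (h4.dvd_iff dvd_rfl).mpr (dvd_mul_right _ _)
    obtain ⟨m', rfl⟩ := h3
    refine ⟨m', ?_, hk⟩
    have h5 : m' ≡ m [MOD l] := by
      rw [pow_succ] at h2
      exact Nat.ModEq.mul_left_cancel' hla.ne' h2
    intro h6
    exact hm ((h5.dvd_iff dvd_rfl).mp h6)
  refine ⟨?_, (ringChar_iff v' l hl).mpr hlv, hmodM'.of_dvd (pow_dvd_pow l (le_max_left _ _)), ?_⟩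
  · intro w' hw' x
    obtain ⟨g, hg⟩ := htr2 w' hw'
    rw [hg, smul_sub, smul_pow', smul_smul, mul_comm g γ, ← smul_smul]
    have h1 : ∀ y : 𝓞 H, w.valuation H (γ • (y : H) - (y : H) ^ (Ideal.absNorm v'.asIdeal)) < 1 := by
      intro y
      rw [← val_lt_iff w P hPw, map_sub, ← hres, map_pow]
      exact hΦv (algebraMap (𝓞 H) (𝓞 L) y)
    exact h1 (g • x)
  · intro x hx
    choose y hy using hαcl x hx
    rw [loc v' P w hw hPw Φ hΦv γ hres l a m' hl hlP hm' hvN x (hcl v' hZv x hx) y hy,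
      loc t Pt wt hwt hPt Φ hΦt γ hres l a m hl hlPt hm hqN x (hcl t hZ x hx) y hy]


end

section

open Filter Topology Pool.Agent.K3h36.RS

theorem approx0 (F H G : Type) [Field F] [NumberField F] [Field H] [NumberField H] [Algebra F H]
    [CommGroup G] [Finite G] [MulSemiringAction G H] [IsGaloisGroup G F H] (l : ℕ) (hl : l.Prime)
    (hH : ¬ ∃ ζ : H, ζ ^ l = 1 ∧ ζ ≠ 1) :
    ∃ (L : Type) (_ : Field L) (_ : NumberField L) (_ : Algebra F L) (Φ : L ≃ₐ[F] L)
      (bad : Finset (HeightOneSpectrum (𝓞 F))), ∀ v, v ∉ bad → FrobIn Φ v →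
      IsFrob (H := H) v (1 : G) ∧ ¬ l ∣ Ideal.absNorm v.asIdeal - 1 := by
  classical
  have : NeZero l := ⟨hl.ne_zero⟩
  let L := CyclotomicField l H
  obtain ⟨ζ, hζ⟩ := IsCyclotomicExtension.exists_isPrimitiveRoot (S := ({l} : Set ℕ)) (n := l) H L
    rfl hl.ne_zero
  have : IsGalois H L := IsCyclotomicExtension.isGalois {l} H L
  obtain ⟨Φ, hΦ⟩ : ∃ Φ : L ≃ₐ[H] L, Φ ζ ≠ ζ := by
    by_contra hcon
    push Not at hcon
    obtain ⟨z, hz⟩ := (IsGalois.mem_range_algebraMap_iff_fixed (F := H) (E := L) ζ).mpr hcon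
    apply hH
    refine ⟨z, ?_, ?_⟩
    · apply (algebraMap H L).injective
      rw [map_pow, hz, map_one, hζ.pow_eq_one]
    · intro h1
      rw [h1, map_one] at hz
      exact hζ.ne_one hl.one_lt hz.symm
  have hbadfin : {v : HeightOneSpectrum (𝓞 F) | v.asIdeal ∣ Ideal.span {(l : 𝓞 F)}}.Finite := by
    refine Ideal.finite_factors ?_
    rw [Ne, Ideal.zero_eq_bot, Ideal.span_singleton_eq_bot]
    exact_mod_cast hl.ne_zero
  refine ⟨L, inferInstance, inferInstance, inferInstance, Φ.restrictScalars F, hbadfin.toFinset, ?_⟩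
  rintro v hv ⟨P, ⟨v', hv', hPv⟩, hP⟩
  rw [Set.mem_singleton_iff] at hv'
  subst hv'
  have hlv : (l : 𝓞 F) ∉ v'.asIdeal := by
    intro h
    apply hv
    rw [Set.Finite.mem_toFinset]
    exact Ideal.dvd_iff_le.mpr ((Ideal.span_singleton_le_iff_mem _).mpr h)
  -- the prime of `H` below `P`
  have hPH : P.asIdeal.comap (algebraMap (𝓞 H) (𝓞 L)) ≠ ⊥ := by
    intro h0
    have h1 : P.asIdeal.comap (algebraMap (𝓞 F) (𝓞 L)) =
        (P.asIdeal.comap (algebraMap (𝓞 H) (𝓞 L))).comap (algebraMap (𝓞 F) (𝓞 H)) := by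
      rw [Ideal.comap_comap]
      rfl
    rw [h1, h0] at hPv
    apply v'.ne_bot
    rw [← hPv]
    exact (RingHom.injective_iff_ker_eq_bot _).mp (FaithfulSMul.algebraMap_injective (𝓞 F) (𝓞 H))
  have := P.isPrime
  let w : HeightOneSpectrum (𝓞 H) :=
    ⟨P.asIdeal.comap (algebraMap (𝓞 H) (𝓞 L)), Ideal.comap_isPrime _ _, hPH⟩
  have hw : Above {v'} w := by
    refine ⟨v', rfl, ?_⟩
    rw [← hPv]
    change (P.asIdeal.comap (algebraMap (𝓞 H) (𝓞 L))).comap (algebraMap (𝓞 F) (𝓞 H)) = _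
    rw [Ideal.comap_comap]
    rfl
  have hwx : ∀ x : 𝓞 H, w.valuation H ((x : H) - (x : H) ^ (Ideal.absNorm v'.asIdeal)) < 1 := by
    intro x
    have h1 := hP (algebraMap (𝓞 H) (𝓞 L) x)
    have h2 : ((algebraMap (𝓞 H) (𝓞 L) x : 𝓞 L) : L) = algebraMap H L (x : H) := rfl
    rw [h2] at h1
    have h3 : (Φ.restrictScalars F) (algebraMap H L (x : H)) = algebraMap H L (x : H) :=
      Φ.commutes _
    rw [h3] at h1
    have h4 : algebraMap H L (x : H) - algebraMap H L (x : H) ^ (Ideal.absNorm v'.asIdeal) =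
        ((algebraMap (𝓞 H) (𝓞 L) (x - x ^ (Ideal.absNorm v'.asIdeal)) : 𝓞 L) : L) := by
      rw [map_sub, map_pow]
      push_cast
      rfl
    rw [h4] at h1
    have h5 := (P.valuation_lt_one_iff_mem (K := L) _).mp h1
    have h6 : x - x ^ (Ideal.absNorm v'.asIdeal) ∈ w.asIdeal := h5
    have h7 := (w.valuation_lt_one_iff_mem (K := H) _).mpr h6
    have h8 : (x : H) - (x : H) ^ (Ideal.absNorm v'.asIdeal) =
        algebraMap (𝓞 H) H (x - x ^ (Ideal.absNorm v'.asIdeal)) := by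
      rw [map_sub, map_pow]
    rw [h8]
    exact h7
  constructor
  · intro w' hw' x
    rw [one_smul]
    obtain ⟨γ, hγ⟩ := (Pool.Agent.K3h25.RS.t_TRANS F H G v' w hw).2 w' hw'
    rw [hγ, smul_sub, smul_pow']
    exact hwx (γ • x)
  · intro hdvd
    have hNpos : 1 ≤ Ideal.absNorm v'.asIdeal := by
      rw [Nat.one_le_iff_ne_zero, Ne, Ideal.absNorm_eq_zero_iff]
      exact v'.ne_bot
    obtain ⟨k, hk⟩ := hdvd
    have hN : Ideal.absNorm v'.asIdeal = 1 + l * k := by omega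
    have hζi : IsIntegral ℤ ζ := hζ.isIntegral hl.pos
    have h1 : P.valuation L (Φ ζ - ζ ^ (Ideal.absNorm v'.asIdeal)) < 1 := hP ⟨ζ, hζi⟩
    rw [hN, pow_add, pow_mul, hζ.pow_eq_one, one_pow, mul_one, pow_one] at h1
    have hζ0 : ζ ≠ 0 := hζ.ne_zero hl.ne_zero
    have hζv : P.valuation L ζ = 1 := by
      have h4 : (P.valuation L ζ) ^ l = 1 := by rw [← map_pow, hζ.pow_eq_one, map_one]
      exact (pow_eq_one_iff_of_nonneg zero_le hl.ne_zero).mp h4
    have h5 : P.valuation L (Φ ζ / ζ - 1) < 1 := by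
      have e : Φ ζ / ζ - 1 = (Φ ζ - ζ) / ζ := by rw [sub_div, div_self hζ0]
      rw [e, map_div₀, hζv, div_one]
      exact h1
    have h6 := root_sub_one P l (Φ ζ / ζ)
      (by rw [div_pow, ← map_pow, hζ.pow_eq_one, map_one, div_one])
      (by
        intro h
        rw [div_eq_one_iff_eq hζ0] at h
        exact hΦ h) h5
    have h7 : (l : L) = algebraMap (𝓞 L) L (l : 𝓞 L) := by rw [map_natCast]
    rw [h7] at h6
    have h8 := (P.valuation_lt_one_iff_mem (K := L) _).mp h6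
    apply hlv
    rw [← hPv, Ideal.mem_comap, map_natCast]
    exact h8


end

end Pool.Agent.Zk81.RS
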